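import Mathlib

/-!
# Two planar clouds of ten points with the same pointwise distance distribution

`row C p` is the list of the distances from `p` to the other points of the cloud `C`, in
non-decreasing order, and `PDD C` is the multiset of the rows of the points of `C`.
We give two clouds of ten points in the Euclidean plane which have the same `PDD` but are not
isometric.

The clouds: put the twelve points `u_0, ..., u_11` of a regular 12-gon on a circle of radius `2`.
Both clouds contain the six points `u_k`, `k = 0, 1, 4, 5, 8, 9`; the first one contains moreover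
the points `2 u_k`, `k = 0, 1, 6, 7`, the second one the points `2 u_k`, `k = 1, 2, 7, 8`.
-/

set_option autoImplicit false

namespace Pool.Agent.Results.MP_8766ea_co.TenPoints

/-- The Euclidean plane. -/
abbrev Plane : Type := EuclideanSpace ℝ (Fin 2)

open scoped Classical in
/-- The row of `p` in the cloud `C`: the distances from `p` to the other points of `C`, listed in
non-decreasing order. -/
noncomputable def row (C : Finset Plane) (p : Plane) : List ℝ :=
  ((C.erase p).val.map (fun q => dist p q)).sort (· ≤ ·)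

/-- The pointwise distance distribution of the cloud `C`: the multiset of its rows. -/
noncomputable def PDD (C : Finset Plane) : Multiset (List ℝ) :=
  C.val.map (row C)

/-! ### Points with coordinates in `ℤ[√3]` -/

/-- `(a, b, c, d)` stands for the point `(a + b √3, c + d √3)`. -/
noncomputable def pt (v : ℤ × ℤ × ℤ × ℤ) : Plane :=
  !₂[(v.1 : ℝ) + v.2.1 * √3, (v.2.2.1 : ℝ) + v.2.2.2 * √3]

/-- the squared distance, as an element of `ℤ[√3]` -/
def code (v w : ℤ × ℤ × ℤ × ℤ) : ℤ × ℤ :=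
  ((v.1 - w.1) ^ 2 + 3 * (v.2.1 - w.2.1) ^ 2 + (v.2.2.1 - w.2.2.1) ^ 2
      + 3 * (v.2.2.2 - w.2.2.2) ^ 2,
    2 * ((v.1 - w.1) * (v.2.1 - w.2.1) + (v.2.2.1 - w.2.2.1) * (v.2.2.2 - w.2.2.2)))

/-- `(p, q)` stands for the number `p + q √3`. -/
noncomputable def val (c : ℤ × ℤ) : ℝ := (c.1 : ℝ) + c.2 * √3

theorem sq3 : (√3 : ℝ) ^ 2 = 3 := Real.sq_sqrt (by norm_num)

theorem val_code (v w : ℤ × ℤ × ℤ × ℤ) : val (code v w) = dist (pt v) (pt w) ^ 2 := by
  rw [EuclideanSpace.dist_eq, Real.sq_sqrt (by positivity)]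
  simp only [Fin.sum_univ_two, pt, Real.dist_eq, sq_abs]
  simp only [val, code, Matrix.cons_val_zero, Matrix.cons_val_one]
  push_cast
  have h := sq3
  nlinarith [h]

theorem val_inj {c d : ℤ × ℤ} (h : val c = val d) : c = d := by
  have hirr : Irrational (√3) := by
    have := Nat.Prime.irrational_sqrt (p := 3) (by norm_num)
    exact_mod_cast this
  unfold val at h
  by_cases h2 : c.2 = d.2
  · rw [h2] at h
    have h1 : (c.1 : ℝ) = d.1 := by linarith
    have h1' : c.1 = d.1 := by exact_mod_cast h1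
    exact Prod.ext h1' h2
  · exfalso
    have hne : ((c.2 : ℝ) - d.2) ≠ 0 := by
      intro h0
      apply h2
      have : (c.2 : ℝ) = d.2 := by linarith
      exact_mod_cast this
    have e : √3 = (((d.1 - c.1 : ℤ) : ℚ) / ((c.2 - d.2 : ℤ) : ℚ) : ℚ) := by
      push_cast
      rw [eq_div_iff hne]
      linarith
    exact hirr ⟨_, e.symm⟩

/-- the square root of `p + q √3` -/
noncomputable def g (c : ℤ × ℤ) : ℝ := √(val c)

theorem dist_pt (v w : ℤ × ℤ × ℤ × ℤ) : dist (pt v) (pt w) = g (code v w) := by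
  unfold g
  rw [val_code, Real.sqrt_sq dist_nonneg]

theorem code_eq_of_dist_eq {v w v' w' : ℤ × ℤ × ℤ × ℤ}
    (h : dist (pt v) (pt w) = dist (pt v') (pt w')) : code v w = code v' w' := by
  apply val_inj
  rw [val_code, val_code, h]

theorem pt_injective : Function.Injective pt := by
  intro v w h
  have h1 : code v w = code v v := code_eq_of_dist_eq (by rw [h])
  have h2 : (code v w).1 = 0 := by rw [h1]; simp [code]
  simp only [code] at h2
  have a1 := sq_nonneg (v.1 - w.1)
  have a2 := sq_nonneg (v.2.1 - w.2.1)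
  have a3 := sq_nonneg (v.2.2.1 - w.2.2.1)
  have a4 := sq_nonneg (v.2.2.2 - w.2.2.2)
  have b1 : (v.1 - w.1) ^ 2 = 0 := by linarith
  have b2 : (v.2.1 - w.2.1) ^ 2 = 0 := by linarith
  have b3 : (v.2.2.1 - w.2.2.1) ^ 2 = 0 := by linarith
  have b4 : (v.2.2.2 - w.2.2.2) ^ 2 = 0 := by linarith
  refine Prod.ext ?_ (Prod.ext ?_ (Prod.ext ?_ ?_))
  · exact sub_eq_zero.1 (pow_eq_zero_iff (two_ne_zero) |>.1 b1)
  · exact sub_eq_zero.1 (pow_eq_zero_iff (two_ne_zero) |>.1 b2)
  · exact sub_eq_zero.1 (pow_eq_zero_iff (two_ne_zero) |>.1 b3)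
  · exact sub_eq_zero.1 (pow_eq_zero_iff (two_ne_zero) |>.1 b4)

/-! ### The two clouds -/

/-- the first cloud, in `ℤ[√3]` coordinates -/
def S : Finset (ℤ × ℤ × ℤ × ℤ) :=
  {(2, 0, 0, 0), (0, 1, 1, 0), (-1, 0, 0, 1), (0, -1, 1, 0), (-1, 0, 0, -1), (0, 0, -2, 0),
    (4, 0, 0, 0), (0, 2, 2, 0), (-4, 0, 0, 0), (0, -2, -2, 0)}

/-- the second cloud, in `ℤ[√3]` coordinates -/
def T : Finset (ℤ × ℤ × ℤ × ℤ) :=
  {(2, 0, 0, 0), (0, 1, 1, 0), (-1, 0, 0, 1), (0, -1, 1, 0), (-1, 0, 0, -1), (0, 0, -2, 0),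
    (0, 2, 2, 0), (2, 0, 0, 2), (0, -2, -2, 0), (-2, 0, 0, -2)}

/-- the multiset of the codes of a row -/
def crow (X : Finset (ℤ × ℤ × ℤ × ℤ)) (v : ℤ × ℤ × ℤ × ℤ) : Multiset (ℤ × ℤ) :=
  (X.erase v).val.map (code v)

theorem crow_eq : S.val.map (crow S) = T.val.map (crow T) := by decide

theorem no_embedding : ∀ a ∈ T, ∀ b ∈ T, code a b = code (2, 0, 0, 0) (0, 1, 1, 0) →
    ∀ c ∈ T, code a c = code (2, 0, 0, 0) (4, 0, 0, 0) →
      code b c = code (0, 1, 1, 0) (4, 0, 0, 0) →
    ∀ d ∈ T, code a d = code (2, 0, 0, 0) (0, 2, 2, 0) →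
      code b d = code (0, 1, 1, 0) (0, 2, 2, 0) →
      code c d = code (4, 0, 0, 0) (0, 2, 2, 0) → False := by decide

open scoped Classical in
theorem row_image (X : Finset (ℤ × ℤ × ℤ × ℤ)) (v : ℤ × ℤ × ℤ × ℤ) :
    row (X.map ⟨pt, pt_injective⟩) (pt v) = ((crow X v).map g).sort (· ≤ ·) := by
  unfold row crow
  congr 1
  have h : (X.map ⟨pt, pt_injective⟩).erase (pt v) = (X.erase v).map ⟨pt, pt_injective⟩ := by
    ext q
    simp only [Finset.mem_erase, Finset.mem_map, Function.Embedding.coeFn_mk]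
    constructor
    · rintro ⟨h1, w, hw, rfl⟩
      exact ⟨w, ⟨fun h => h1 (by rw [h]), hw⟩, rfl⟩
    · rintro ⟨w, ⟨h1, hw⟩, rfl⟩
      exact ⟨fun h => h1 (pt_injective h), w, hw, rfl⟩
  rw [h, Finset.map_val, Multiset.map_map, Multiset.map_map]
  apply Multiset.map_congr rfl
  intro w _
  exact dist_pt v w

theorem PDD_image (X : Finset (ℤ × ℤ × ℤ × ℤ)) :
    PDD (X.map ⟨pt, pt_injective⟩) =
      (X.val.map (crow X)).map (fun M => (M.map g).sort (· ≤ ·)) := by
  unfold PDD
  rw [Finset.map_val, Multiset.map_map, Multiset.map_map]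
  apply Multiset.map_congr rfl
  intro w _
  exact row_image X w

/-- There are two clouds of ten points in the Euclidean plane that have the same pointwise distance
distribution, but no isometry of the plane maps the first onto the second. -/
theorem result : ∃ C C' : Finset Plane, C.card = 10 ∧ C'.card = 10 ∧ PDD C = PDD C' ∧
    ¬ ∃ f : Plane → Plane, Isometry f ∧ f '' (C : Set Plane) = (C' : Set Plane) := by
  refine ⟨S.map ⟨pt, pt_injective⟩, T.map ⟨pt, pt_injective⟩, ?_, ?_, ?_, ?_⟩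
  · rw [Finset.card_map]; decide
  · rw [Finset.card_map]; decide
  · rw [PDD_image, PDD_image, crow_eq]
  · rintro ⟨f, hf, hfC⟩
    have key : ∀ v ∈ S, ∃ w ∈ T, f (pt v) = pt w := by
      intro v hv
      have h1 : f (pt v) ∈ ((T.map ⟨pt, pt_injective⟩ : Finset Plane) : Set Plane) := by
        rw [← hfC]
        exact ⟨pt v, Finset.mem_coe.2 (Finset.mem_map.2 ⟨v, hv, rfl⟩), rfl⟩
      rw [Finset.mem_coe, Finset.mem_map] at h1
      obtain ⟨w, hw, h⟩ := h1
      exact ⟨w, hw, h.symm⟩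
    obtain ⟨a, ha, ea⟩ := key (2, 0, 0, 0) (by decide)
    obtain ⟨b, hb, eb⟩ := key (0, 1, 1, 0) (by decide)
    obtain ⟨c, hc, ec⟩ := key (4, 0, 0, 0) (by decide)
    obtain ⟨d, hd, ed⟩ := key (0, 2, 2, 0) (by decide)
    have tr : ∀ {v w v' w' : ℤ × ℤ × ℤ × ℤ}, f (pt v) = pt v' → f (pt w) = pt w' →
        code v' w' = code v w := by
      intro v w v' w' h1 h2
      apply code_eq_of_dist_eq
      rw [← h1, ← h2, hf.dist_eq]
    exact no_embedding a ha b hb (tr ea eb) c hc (tr ea ec) (tr eb ec) d hd (tr ea ed)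
      (tr eb ed) (tr ec ed)

end Pool.Agent.Results.MP_8766ea_co.TenPoints
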